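import Pool.Agent.LibKP.Fin80
import Pool.Agent.LibKV.Transfer

/-! THEOREM K' (covers): good minimal models on finite covers, the transfer theorem without extra
hypotheses. -/

set_option autoImplicit false

open scoped Classical

namespace Pool.Agent.LibKP

open Pool.Agent.LibGMM Pool.Agent.LibGMC Pool.Agent.LibCov80 Pool.Agent.LibK Pool.Agent.LibKC

variable {k : Type} [Field k] [Algebra ℂ k] {K : Type} [Field K] [Algebra ℂ K] [Algebra k K]
  [IsScalarTower ℂ k K] [FiniteDimensional k K]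

theorem exists_form (X : NormalModel k) : ∃ ω : TopForm k, ω ≠ 0 := by
  obtain ⟨κ, _, y, hy, _⟩ := exists_trb X X.ne.some
  obtain ⟨ω, hω⟩ := can_exists_vol 1 y (kp_dimK y hy)
  exact ⟨ω, kp_vol_ne_zero one_ne_zero hy hω⟩

/-- If all klt pairs on `X` with pseudo-effective log canonical class have good minimal models, then
all klt pairs on a finite cover of `X` whose log canonical class is pseudo-effective and the
pull-back of the class of an `ℝ`-Cartier divisor on `X` have good minimal models. -/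
theorem gmm_cover {X : NormalModel k} {Y : NormalModel K} (h : IsCover X Y)
    (hX : ∀ (ω₀ : TopForm k) (Δ₀ : DVal k → ℝ), ω₀ ≠ 0 → IsKlt X ω₀ Δ₀ →
      PseudoEff X (lcDiv ω₀ Δ₀) → ∃ W : NormalModel k, IsGoodMinimalModel X ω₀ Δ₀ W)
    (ω : TopForm K) (hω : ω ≠ 0) (Δ : DVal K → ℝ) (hΔ : IsKlt Y ω Δ)
    (hp : PseudoEff Y (lcDiv ω Δ)) (M : DVal k → ℝ) (hM : X.RCartier M) (M' : DVal K → ℝ)
    (hMM : Pulls M' M) (hlin : Y.RLinEq (lcDiv ω Δ) M') :
    ∃ W : NormalModel K, IsGoodMinimalModel Y ω Δ W := by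
  obtain ⟨ω₀, hω₀⟩ := exists_form X
  exact LibKV.gmm_transfer h ω₀ ω (fun Δ₀ h1 h2 => hX ω₀ Δ₀ hω₀ h1 h2) Δ hΔ hp M hM M' hMM hlin
    (ram X hω₀ hω) (fun Q q e h1 h2 => over_divisorial h1 h2)
    (fun q hq => divisorial_of_prime hq) (finite_canOrd X hω₀) (finite_canOrd Y hω)

end Pool.Agent.LibKP
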