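import Pool.Agent.LibKP.Over80
import Pool.Agent.LibCov80.Ram

/-! THEOREM K' (covers), helper80: the divisor of a top form on a normal model is finite. -/

set_option autoImplicit false

open scoped KaehlerDifferential
open Pool.Agent.LibGMM Pool.Agent.LibK Pool.Agent.LibKC Pool.Agent.LibCov80

namespace Pool.Agent.LibKP

section

variable {K : Type} [Field K] [Algebra ℂ K]

/-- The coordinates of a chart contain a transcendence basis. -/
theorem exists_trb (X : NormalModel K) (i : X.ι) : ∃ (κ : Type) (_ : Fintype κ) (y : κ → K),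
    IsTranscendenceBasis ℂ y ∧ ∀ j, ∃ l, y j = (X.g l : K) / X.g i := by
  classical
  have := X.fin
  set s : Set K := Set.range fun j => (X.g j : K) / X.g i with hs
  have halg : Algebra.IsAlgebraic (Algebra.adjoin ℂ s) K := by
    refine ⟨fun z => ?_⟩
    obtain ⟨a, ha, b, hb, hb0, hz⟩ := X.frac i z
    refine ⟨Polynomial.C ⟨b, hb⟩ * Polynomial.X - Polynomial.C ⟨a, ha⟩, ?_, ?_⟩
    · intro h
      have h1 := congrArg (fun p => Polynomial.coeff p 1) h
      simp only [Polynomial.coeff_sub, Polynomial.coeff_C_mul, Polynomial.coeff_X_one, mul_one,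
        Polynomial.coeff_C_succ, sub_zero, Polynomial.coeff_zero] at h1
      exact hb0 (congrArg Subtype.val h1)
    · rw [map_sub, map_mul, Polynomial.aeval_C, Polynomial.aeval_C, Polynomial.aeval_X]
      change b * z - a = 0
      rw [hz]; field_simp; ring
  obtain ⟨t, hts, ht⟩ := exists_isTranscendenceBasis_subset (R := ℂ) s
  have hfin : t.Finite := (Set.finite_range _).subset hts
  refine ⟨t, hfin.fintype, Subtype.val, ht, fun j => ?_⟩
  obtain ⟨l, hl⟩ := hts j.2
  exact ⟨l, hl.symm⟩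

theorem divisorial_of_prime {X : NormalModel K} {Q : DVal K} (hQ : X.IsPrimeDiv Q) :
    Q.Divisorial := by
  have := X.fin
  obtain ⟨i, hi, hfrac⟩ := exists_frac_ord X Q hQ
  refine ⟨chart X.g i, ⟨(Set.finite_range fun j => (X.g j : K) / X.g i).toFinset, by
    rw [Set.Finite.coe_toFinset]; rfl⟩, fun a ha => hi ha, fun x hx => ?_⟩
  obtain ⟨a, ha, b, hb, hb0, hbi, hx⟩ := hfrac x hx
  refine ⟨a, ha, b, hb, hb0, ?_, hx⟩
  have h1 : 0 ≤ Q.ord b := hi hb
  have h2 : 0 ≤ Q.ord b⁻¹ := hbi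
  rw [Q.ord_inv] at h2
  omega

theorem canOrd_smul' (X : NormalModel K) {O : DVal K} (hO : O.Divisorial) {ω : TopForm K}
    (hω : ω ≠ 0) (c : Kˣ) : canOrd O ((c : K) • ω) = canOrd O ω + O.ord (c : K) := by
  obtain ⟨κ, _, y, hy, _⟩ := exists_trb X X.ne.some
  exact kp_canOrd_smul O hO y hy hω c

theorem exists_smul' (X : NormalModel K) {ω ω' : TopForm K} (h : ω ≠ 0) (h' : ω' ≠ 0) :
    ∃ c : Kˣ, ω' = (c : K) • ω := by
  obtain ⟨κ, _, y, hy, _⟩ := exists_trb X X.ne.some
  exact can_exists_smul (kp_finite y hy) h h'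

theorem evp_D' {O : DVal K} {κ : Type} [Fintype κ] {y : κ → K} (hy : ∀ i, 0 ≤ O.ord (y i))
    {x : K} (hx : 0 ≤ O.ord x) (N' : Submodule O.ring (Ω[K⁄ℂ]))
    (hDb : ∀ i, KaehlerDifferential.D ℂ K (y i) ∈ N') (p : Polynomial (MvPolynomial κ ℂ)) :
    KaehlerDifferential.D ℂ K (evp y x p) -
      evp y x (Polynomial.derivative p) • KaehlerDifferential.D ℂ K x ∈ N' := by
  have hDpoly : ∀ c : MvPolynomial κ ℂ,
      KaehlerDifferential.D ℂ K (MvPolynomial.aeval y c) ∈ N' := by
    intro c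
    rw [derivation_aeval (KaehlerDifferential.D ℂ K) y c]
    exact Submodule.sum_mem _ fun v _ =>
      can_smul_mem _ (can_aeval_nonneg hy _) (hDb v)
  induction p using Polynomial.induction_on' with
  | add p q hp hq =>
    have h1 := Submodule.add_mem _ hp hq
    rw [map_add, map_add, map_add, map_add, add_smul]
    convert h1 using 1
    abel
  | monomial n c =>
    rw [← Polynomial.C_mul_X_pow_eq_monomial, Polynomial.derivative_C_mul_X_pow]
    rw [evp_C_mul, evp_C_mul, Derivation.leibniz, Derivation.leibniz_pow, map_mul, map_natCast]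
    have h2 : MvPolynomial.aeval y c • (n • x ^ (n - 1) • KaehlerDifferential.D ℂ K x) +
        x ^ n • KaehlerDifferential.D ℂ K (MvPolynomial.aeval y c) -
        (MvPolynomial.aeval y c * (n : K) * x ^ (n - 1)) • KaehlerDifferential.D ℂ K x =
        x ^ n • KaehlerDifferential.D ℂ K (MvPolynomial.aeval y c) := by
      rw [← Nat.cast_smul_eq_nsmul K, smul_smul, smul_smul, mul_assoc]
      abel
    rw [h2]
    exact can_smul_mem _ (by rw [O.ord_pow]; positivity) (hDpoly c)

/-- A separable equation over a transcendence basis. -/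
theorem exists_sep {κ : Type} [Fintype κ] {y : κ → K} (hy : IsTranscendenceBasis ℂ y) (x : K) :
    ∃ p, evp y x p = 0 ∧ evp y x (Polynomial.derivative p) ≠ 0 := by
  classical
  have hex : ∃ n, ∃ p : Polynomial (MvPolynomial κ ℂ), p ≠ 0 ∧ p.natDegree = n ∧
      evp y x p = 0 := by
    have h1 : ¬ AlgebraicIndependent ℂ fun o : Option κ => o.elim x y := by
      intro h
      have h2 := h.cardinalMk_le_trdeg
      rw [← hy.cardinalMk_eq_trdeg, Cardinal.mk_fintype, Cardinal.mk_fintype,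
        Fintype.card_option] at h2
      have h3 : Fintype.card κ + 1 ≤ Fintype.card κ := by exact_mod_cast h2
      omega
    rw [algebraicIndependent_iff] at h1
    push Not at h1
    obtain ⟨P, hP, hP0⟩ := h1
    refine ⟨_, MvPolynomial.optionEquivLeft ℂ κ P, ?_, rfl, ?_⟩
    · intro h
      exact hP0 ((MvPolynomial.optionEquivLeft ℂ κ).injective (by rw [h, map_zero]))
    · rw [evp_option] at hP
      exact hP
  obtain ⟨p, hp0, hpn, hp⟩ := Nat.find_spec hex
  have hmin := fun k (hk : k < Nat.find hex) => Nat.find_min hex hk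
  have hdeg : p.natDegree ≠ 0 := by
    intro h
    rw [Polynomial.natDegree_eq_zero] at h
    obtain ⟨c, rfl⟩ := h
    have h1 : evp y x (Polynomial.C c) = MvPolynomial.aeval y c := by simp [evp]
    rw [h1] at hp
    have hc : c = 0 := (injective_iff_map_eq_zero _).1 hy.1 c hp
    rw [hc] at hp0
    exact hp0 (by simp)
  have hder0 : Polynomial.derivative p ≠ 0 := by
    intro h
    exact hdeg (Polynomial.natDegree_eq_zero_of_derivative_eq_zero h)
  have h1 := hmin (Polynomial.derivative p).natDegree (by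
    rw [← hpn]; exact Polynomial.natDegree_derivative_lt hdeg)
  push Not at h1
  exact ⟨p, hp, h1 _ hder0 rfl⟩

/-- The divisor of a top form is finite. -/
theorem finite_canOrd (X : NormalModel K) {ω : TopForm K} (hω : ω ≠ 0) :
    {Q | X.IsPrimeDiv Q ∧ canOrd Q ω ≠ 0}.Finite := by
  classical
  have := X.fin
  have key : ∀ i : X.ι, ∃ S : Set (DVal K), S.Finite ∧ ∀ Q, X.IsPrimeDiv Q →
      chart X.g i ≤ Q.ring → (∀ x ∈ Q.ring, ∃ a ∈ chart X.g i, ∃ b ∈ chart X.g i,
        b ≠ 0 ∧ b⁻¹ ∈ Q.ring ∧ x = a / b) → canOrd Q ω ≠ 0 → Q ∈ S := by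
    intro i
    obtain ⟨κ, _, y, hy, hyl⟩ := exists_trb X i
    obtain ⟨g, hg, hv⟩ := kp_vol y hy hω
    have hp := fun l => exists_sep hy ((X.g l : K) / X.g i)
    choose p hp0 hp1 using hp
    refine ⟨(⋃ l, {Q | X.IsPrimeDiv Q ∧ Q.ord (Units.mk0 _ (hp1 l) : Kˣ) ≠ 0}) ∪
      {Q | X.IsPrimeDiv Q ∧ Q.ord (Units.mk0 g hg : Kˣ) ≠ 0},
      (Set.finite_iUnion fun l => X.finite_ord_ne _).union (X.finite_ord_ne _), ?_⟩
    intro Q hQ hi hfrac hne
    by_contra hcon
    rw [Set.mem_union, Set.mem_iUnion] at hcon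
    push Not at hcon
    obtain ⟨hc1, hc2⟩ := hcon
    have hδ : ∀ l, Q.ord (evp y ((X.g l : K) / X.g i) (Polynomial.derivative (p l))) = 0 := by
      intro l
      by_contra h
      exact hc1 l ⟨hQ, h⟩
    have hg1 : Q.ord g = 0 := by
      by_contra h
      exact hc2 ⟨hQ, h⟩
    have hgen : ∀ l, 0 ≤ Q.ord ((X.g l : K) / X.g i) := fun l =>
      hi (Algebra.subset_adjoin ⟨l, rfl⟩)
    have hy0 : ∀ j, 0 ≤ Q.ord (y j) := by
      intro j
      obtain ⟨l, hl⟩ := hyl j
      rw [hl]
      exact hgen l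
    have hspan : ∀ z, 0 ≤ Q.ord z → KaehlerDifferential.D ℂ K z ∈
        Submodule.span Q.ring (Set.range fun i => KaehlerDifferential.D ℂ K (y i)) := by
      intro z hz
      refine (Submodule.span_le.2 ?_) (D_mem X i Q.ring hi hfrac z hz)
      rintro _ ⟨l, rfl⟩
      have h1 := evp_D' hy0 (hgen l) (Submodule.span Q.ring
        (Set.range fun i => KaehlerDifferential.D ℂ K (y i)))
        (fun i => Submodule.subset_span ⟨i, rfl⟩) (p l)
      rw [hp0 l, map_zero, zero_sub] at h1
      have h2 := Submodule.neg_mem _ h1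
      rw [neg_neg] at h2
      have h3 : 0 ≤ Q.ord (evp y ((X.g l : K) / X.g i) (Polynomial.derivative (p l)))⁻¹ := by
        rw [Q.ord_inv, hδ l]; simp
      have h4 := can_smul_mem _ h3 h2
      rw [smul_smul, inv_mul_cancel₀ (hp1 l), one_smul] at h4
      exact h4
    exact hne (by rw [can_ord_of_vol hv hω Q hy0 hspan, hg1])
  choose S hS hSm using key
  refine (Set.finite_iUnion hS).subset ?_
  rintro Q ⟨hQ, hne⟩
  obtain ⟨i, hi, hfrac⟩ := exists_frac_ord X Q hQ
  exact Set.mem_iUnion.2 ⟨i, hSm i Q hQ hi hfrac hne⟩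

end

section

variable {k : Type} [Field k] [Algebra ℂ k] {K : Type} [Field K] [Algebra ℂ K] [Algebra k K]
  [IsScalarTower ℂ k K] [FiniteDimensional k K]

/-- The formula `A(Q) = e A(q)` for log discrepancies. -/
theorem ram (X : NormalModel k) {ω : TopForm k} (hω : ω ≠ 0) {ω' : TopForm K} (hω' : ω' ≠ 0) :
    ∃ c : Kˣ, ∀ (Q : DVal K) (q : DVal k) (e : ℕ), Over Q q e → q.Divisorial →
      canOrd Q ω' + 1 = (e : ℤ) * (canOrd q ω + 1) + Q.ord (c : K) := by
  obtain ⟨κ, _, y, hy, _⟩ := exists_trb X X.ne.some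
  exact ram_of_basis y hy hω hω'

end

end Pool.Agent.LibKP
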