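import Pool.Agent.LibKC.CANc
import Pool.Agent.LibCov80.Norm
import Mathlib.RingTheory.Etale.Kaehler
import Mathlib.RingTheory.Etale.Field

/-! THEOREM K' (covers), helper80: differentials and transcendence bases. -/

set_option autoImplicit false

open scoped KaehlerDifferential
open Pool.Agent.LibGMM Pool.Agent.LibK Pool.Agent.LibKC

namespace Pool.Agent.LibKP

section

variable {E : Type} [Field E] [Algebra ℂ E] {κ : Type} [Fintype κ]

theorem kp_basis (y : κ → E) (hy : IsTranscendenceBasis ℂ y) :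
    ∃ b : Module.Basis κ E (Ω[E⁄ℂ]), ∀ i, b i = KaehlerDifferential.D ℂ E (y i) := by
  classical
  let F : IntermediateField ℂ E := IntermediateField.adjoin ℂ (Set.range y)
  let y₀ : κ → F := fun i => ⟨y i, IntermediateField.subset_adjoin _ _ ⟨i, rfl⟩⟩
  have hy₀ : AlgebraicIndependent ℂ y₀ := AlgebraicIndependent.of_comp F.val hy.1
  have hgen : IntermediateField.adjoin ℂ (Set.range y₀) = ⊤ := by
    apply IntermediateField.map_injective F.val
    rw [IntermediateField.adjoin_map, ← Set.range_comp, ← AlgHom.fieldRange_eq_map,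
      IntermediateField.fieldRange_val]
    rfl
  obtain ⟨b₀, hb₀⟩ := can_basis y₀ hy₀ hgen
  have halg : Algebra.IsAlgebraic F E := hy.isAlgebraic_field
  have : CharZero F := charZero_of_injective_algebraMap (algebraMap ℂ F).injective
  have hsep : Algebra.IsSeparable F E := inferInstance
  have : Algebra.FormallyEtale F E := Algebra.FormallyEtale.of_isSeparable F E
  refine ⟨(b₀.baseChange E).map
    (KaehlerDifferential.tensorKaehlerEquivOfFormallyEtale ℂ F E), fun i => ?_⟩
  rw [Module.Basis.map_apply, Module.Basis.baseChange_apply, hb₀,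
    KaehlerDifferential.tensorKaehlerEquivOfFormallyEtale_apply,
    KaehlerDifferential.mapBaseChange_tmul, one_smul, KaehlerDifferential.map_D]
  rfl

theorem kp_finite (y : κ → E) (hy : IsTranscendenceBasis ℂ y) : Module.Finite E (Ω[E⁄ℂ]) := by
  obtain ⟨b, _⟩ := kp_basis y hy
  exact Module.Finite.of_basis b

theorem kp_dimK (y : κ → E) (hy : IsTranscendenceBasis ℂ y) : dimK E = Fintype.card κ := by
  obtain ⟨b, _⟩ := kp_basis y hy
  exact Module.finrank_eq_card_basis b

theorem kp_vol_ne_zero {g : E} (hg : g ≠ 0) {y : κ → E} (hy : IsTranscendenceBasis ℂ y)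
    {ω : TopForm E} (h : IsVol ω g y) : ω ≠ 0 := by
  classical
  obtain ⟨b, hb⟩ := kp_basis y hy
  obtain ⟨d, hd⟩ := can_dual y b hb
  obtain ⟨σ, hσ⟩ := h
  intro h0
  have h1 := hσ fun i => d (σ i)
  rw [h0] at h1
  have h2 : (Matrix.det fun i j => d (σ i) (y (σ j))) = (1 : E) := by
    have h3 : (Matrix.of fun i j => d (σ i) (y (σ j)) : Matrix (Fin (dimK E)) (Fin (dimK E)) E)
        = 1 := by
      ext i j
      rw [Matrix.of_apply, hd, Matrix.one_apply]
      simp
    exact (congrArg Matrix.det h3).trans Matrix.det_one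
  rw [h2, mul_one] at h1
  exact hg h1.symm

theorem kp_card_lt {O : DVal E} {ι : Type} [Fintype ι] {b : ι → E} (h : ResIndep O b)
    (y : κ → E) (hy : IsTranscendenceBasis ℂ y) : Fintype.card ι + 1 ≤ Fintype.card κ := by
  obtain ⟨t, ht⟩ := O.exists_ord_one
  have h1 := (h.algebraicIndependent t ht).cardinalMk_le_trdeg
  rw [← hy.cardinalMk_eq_trdeg, Cardinal.mk_fintype, Cardinal.mk_fintype,
    Fintype.card_option] at h1
  exact_mod_cast h1

theorem kp_exists_residues (O : DVal E) (hO : O.Divisorial) (y : κ → E)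
    (hy : IsTranscendenceBasis ℂ y) :
    ∃ (m : ℕ) (b : Fin m → E), m + 1 = Fintype.card κ ∧ ResIndep O b := by
  classical
  have hex : ∃ m, ¬ ∃ b : Fin m → E, ResIndep O b := by
    refine ⟨Fintype.card κ, ?_⟩
    rintro ⟨b, hb⟩
    have h1 := kp_card_lt hb y hy
    rw [Fintype.card_fin] at h1
    omega
  have hspec := Nat.find_spec hex
  have hmin := fun k (hk : k < Nat.find hex) => Nat.find_min hex hk
  have hne : Nat.find hex ≠ 0 := by
    intro h
    rw [h] at hspec
    exact hspec ⟨Fin.elim0, resIndep_zero O _⟩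
  obtain ⟨m, hm⟩ := Nat.exists_eq_succ_of_ne_zero hne
  obtain ⟨b, hb⟩ := not_not.1 (hmin m (by omega))
  refine ⟨m, b, ?_, hb⟩
  have h1 := kp_card_lt hb y hy
  rw [Fintype.card_fin] at h1
  refine le_antisymm h1 ?_
  obtain ⟨t, ht⟩ := O.exists_ord_one
  have hmax : ∀ x, 0 ≤ O.ord x → ¬ ResIndep O fun o : Option (Fin m) => o.elim x b := by
    intro x _ h
    have ε : Fin (m + 1) ≃ Option (Fin m) := finSuccEquiv m
    rw [hm] at hspec
    exact hspec ⟨_, h.reindex ε⟩
  have h2 := can_lattice O hO b hb hmax t ht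
  have h3 : Submodule.span E (Set.range fun o : Option (Fin m) =>
      KaehlerDifferential.D ℂ E (o.elim t b)) = ⊤ := by
    rw [eq_top_iff, ← KaehlerDifferential.span_range_derivation, Submodule.span_le]
    rintro _ ⟨x, rfl⟩
    exact can_span_top h2 x
  have h4 : Module.finrank E (Ω[E⁄ℂ]) = Fintype.card κ := kp_dimK y hy
  have h5 := finrank_range_le_card (R := E) fun o : Option (Fin m) =>
      KaehlerDifferential.D ℂ E (o.elim t b)
  unfold Set.finrank at h5
  rw [h3, finrank_top, h4, Fintype.card_option, Fintype.card_fin] at h5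
  exact h5

/-- The coordinates `t, b` of a divisorial valuation. -/
def tb {m : ℕ} (t : E) (b : Fin m → E) : Unit ⊕ Fin m → E := Sum.elim (fun _ => t) b

theorem kp_lattice (O : DVal E) (hO : O.Divisorial) (y : κ → E) (hy : IsTranscendenceBasis ℂ y)
    {m : ℕ} (hm : m + 1 = Fintype.card κ) (b : Fin m → E) (hb : ResIndep O b) (t : E)
    (ht : O.ord t = 1) (z : E) (hz : 0 ≤ O.ord z) :
    KaehlerDifferential.D ℂ E z ∈
      Submodule.span O.ring (Set.range fun i => KaehlerDifferential.D ℂ E (tb t b i)) := by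
  have hmax : ∀ x, 0 ≤ O.ord x → ¬ ResIndep O fun o : Option (Fin m) => o.elim x b := by
    intro x _ h
    have h1 := kp_card_lt h y hy
    rw [Fintype.card_option, Fintype.card_fin] at h1
    omega
  refine (Submodule.span_le.2 ?_) (can_lattice O hO b hb hmax t ht z hz)
  rintro _ ⟨o, rfl⟩
  rcases o with _ | i
  · exact Submodule.subset_span ⟨Sum.inl (), rfl⟩
  · exact Submodule.subset_span ⟨Sum.inr i, rfl⟩

theorem tb_nonneg {O : DVal E} {m : ℕ} {b : Fin m → E} (hb : ResIndep O b) {t : E}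
    (ht : O.ord t = 1) (i : Unit ⊕ Fin m) : 0 ≤ O.ord (tb t b i) := by
  rcases i with _ | i
  · change 0 ≤ O.ord t
    rw [ht]; norm_num
  · exact hb.nonneg i

/-- A form in the coordinates of a transcendence basis. -/
theorem kp_vol (y : κ → E) (hy : IsTranscendenceBasis ℂ y) {ω : TopForm E} (hω : ω ≠ 0) :
    ∃ g : E, g ≠ 0 ∧ IsVol ω g y := by
  obtain ⟨ω₁, hω₁⟩ := can_exists_vol 1 y (kp_dimK y hy)
  have hω₁0 := kp_vol_ne_zero one_ne_zero hy hω₁
  obtain ⟨c, hc⟩ := can_exists_smul (kp_finite y hy) hω₁0 hω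
  have h1 := hω₁.smul (c : E)
  rw [mul_one, ← hc] at h1
  exact ⟨c, c.ne_zero, h1⟩

/-- Change from a transcendence basis to local coordinates. -/
theorem kp_change (O : DVal E) (hO : O.Divisorial) (y : κ → E) (hy : IsTranscendenceBasis ℂ y)
    {m : ℕ} (hm : m + 1 = Fintype.card κ) (b : Fin m → E) (hb : ResIndep O b) (t : E)
    (ht : O.ord t = 1) (ε : Unit ⊕ Fin m ≃ κ) :
    ∃ J : Matrix (Unit ⊕ Fin m) (Unit ⊕ Fin m) E, ∀ i, KaehlerDifferential.D ℂ E (y (ε i)) =
      ∑ j, J i j • KaehlerDifferential.D ℂ E (tb t b j) := by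
  have h3 : ∀ i, ∃ J : Unit ⊕ Fin m → E, ∑ j, J j • KaehlerDifferential.D ℂ E (tb t b j) =
      KaehlerDifferential.D ℂ E (y (ε i)) := fun i =>
    (Submodule.mem_span_range_iff_exists_fun E).1
      (can_span_top (kp_lattice O hO y hy hm b hb t ht) (y (ε i)))
  choose J hJ using h3
  exact ⟨Matrix.of J, fun i => (hJ i).symm⟩

theorem kp_equiv {m : ℕ} (hm : m + 1 = Fintype.card κ) : Nonempty (Unit ⊕ Fin m ≃ κ) :=
  ⟨Fintype.equivOfCardEq (by rw [Fintype.card_sum, Fintype.card_unit, Fintype.card_fin]; omega)⟩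

theorem kp_canOrd_smul (O : DVal E) (hO : O.Divisorial) (y : κ → E)
    (hy : IsTranscendenceBasis ℂ y) {ω : TopForm E} (hω : ω ≠ 0) (c : Eˣ) :
    canOrd O ((c : E) • ω) = canOrd O ω + O.ord (c : E) := by
  obtain ⟨m, b, hm, hb⟩ := kp_exists_residues O hO y hy
  obtain ⟨t, ht⟩ := O.exists_ord_one
  obtain ⟨ε⟩ := kp_equiv hm
  obtain ⟨J, hJ⟩ := kp_change O hO y hy hm b hb t ht ε
  obtain ⟨g, hg, hv⟩ := kp_vol y hy hω
  have hv1 := (hv.reindex ε).change J hJ
  rw [can_ord_of_vol hv1 hω O (tb_nonneg hb ht) (kp_lattice O hO y hy hm b hb t ht),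
    can_ord_of_vol (hv1.smul (c : E)) (smul_ne_zero c.ne_zero hω) O (tb_nonneg hb ht)
      (kp_lattice O hO y hy hm b hb t ht),
    O.ord_mul _ _ c.ne_zero (hv1.ne_zero hω), add_comm]

end

end Pool.Agent.LibKP
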