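import Pool.Agent.LibKP.Ram80
import Pool.Agent.LibCov80.Big

/-! THEOREM K' (covers), helper80: divisorial valuations under finite covers, the formula
`A(Q) = e A(q)` for log discrepancies. -/

set_option autoImplicit false

open scoped KaehlerDifferential
open Pool.Agent.LibGMM Pool.Agent.LibK Pool.Agent.LibKC Pool.Agent.LibCov80

namespace Pool.Agent.LibKP

variable {k : Type} [Field k] [Algebra ℂ k] {K : Type} [Field K] [Algebra ℂ K] [Algebra k K]
  [IsScalarTower ℂ k K] [FiniteDimensional k K]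

/-- There is a valuation of the finite extension `K` over every valuation of `k`. -/
theorem exists_above (q : DVal k) : ∃ (Q : DVal K) (e : ℕ), Over Q q e := by
  by_contra hcon
  push Not at hcon
  obtain ⟨t, ht⟩ := q.exists_ord_one
  have h1 := norm_nonneg (K := K) q (algebraMap k K t⁻¹)
    (integral_of_over q _ fun Q e h => absurd h (hcon Q e))
  rw [Algebra.norm_algebraMap, q.ord_pow, q.ord_inv, ht] at h1
  have h2 : 0 < Module.finrank k K := Module.finrank_pos
  have h3 : (0 : ℤ) < Module.finrank k K := by exact_mod_cast h2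
  linarith

/-- Valuations over divisorial valuations are divisorial. -/
theorem over_divisorial {Q : DVal K} {q : DVal k} {e : ℕ} (h : Over Q q e)
    (hq : q.Divisorial) : Q.Divisorial := by
  classical
  obtain ⟨A, ⟨s, hs⟩, hA0, hfrac⟩ := hq
  have hsep := isSeparable (k := k) (K := K)
  have hpid := ring_pid q
  have hfr := ring_frac q
  have hfin : Module.Finite q.ring (integralClosure q.ring K) :=
    IsIntegralClosure.finite q.ring k K (integralClosure q.ring K)
  obtain ⟨S, hS⟩ := hfin.fg_top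
  let G : Finset K := s.image (algebraMap k K) ∪
    S.image (fun c : integralClosure q.ring K => (c : K))
  let B : Subalgebra ℂ K := Algebra.adjoin ℂ (G : Set K)
  have hAB : ∀ a ∈ A, algebraMap k K a ∈ B := by
    intro a ha
    rw [← hs] at ha
    induction ha using Algebra.adjoin_induction with
    | mem x hx =>
      refine Algebra.subset_adjoin ?_
      rw [Finset.mem_coe, Finset.mem_union]
      exact Or.inl (Finset.mem_image_of_mem _ hx)
    | algebraMap r =>
      rw [← IsScalarTower.algebraMap_apply]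
      exact B.algebraMap_mem r
    | add x y _ _ h1 h2 => rw [map_add]; exact B.add_mem h1 h2
    | mul x y _ _ h1 h2 => rw [map_mul]; exact B.mul_mem h1 h2
  have hSB : ∀ c ∈ S, (c : K) ∈ B := by
    intro c hc
    refine Algebra.subset_adjoin ?_
    rw [Finset.mem_coe, Finset.mem_union]
    exact Or.inr (Finset.mem_image_of_mem _ hc)
  have hint : ∀ c : K, IsIntegral q.ring c → 0 ≤ Q.ord c := fun c hc =>
    h.nonneg_of_integral (A := q.ring) (fun a ha => ha) hc
  have hCB : ∀ c : K, IsIntegral q.ring c → ∃ β ∈ A, β ≠ 0 ∧ q.ord β = 0 ∧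
      algebraMap k K β * c ∈ B := by
    intro c hc
    have h1 : (⟨c, hc⟩ : integralClosure q.ring K) ∈ Submodule.span q.ring
        (S : Set (integralClosure q.ring K)) := by rw [hS]; trivial
    refine Submodule.span_induction (p := fun (c : integralClosure q.ring K) _ =>
      ∃ β ∈ A, β ≠ 0 ∧ q.ord β = 0 ∧ algebraMap k K β * (c : K) ∈ B) ?_ ?_ ?_ ?_ h1
    · intro x hx
      refine ⟨1, A.one_mem, one_ne_zero, q.ord_one, ?_⟩
      rw [map_one, one_mul]
      exact hSB x hx
    · refine ⟨1, A.one_mem, one_ne_zero, q.ord_one, ?_⟩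
      rw [map_one, one_mul]
      exact B.zero_mem
    · rintro x y _ _ ⟨β, hβ, hβ0, hβ1, h2⟩ ⟨β', hβ', hβ0', hβ1', h2'⟩
      refine ⟨β * β', A.mul_mem hβ hβ', mul_ne_zero hβ0 hβ0', by
        rw [q.ord_mul _ _ hβ0 hβ0', hβ1, hβ1']; rfl, ?_⟩
      have h3 : algebraMap k K (β * β') * ((x + y : integralClosure q.ring K) : K) =
          algebraMap k K β' * (algebraMap k K β * (x : K)) +
            algebraMap k K β * (algebraMap k K β' * (y : K)) := by
        rw [map_mul]
        push_cast
        ring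
      rw [h3]
      exact B.add_mem (B.mul_mem (hAB _ hβ') h2) (B.mul_mem (hAB _ hβ) h2')
    · rintro a x _ ⟨β, hβ, hβ0, hβ1, h2⟩
      obtain ⟨a₁, ha₁, a₂, ha₂, ha20, ha2, haa⟩ := hfrac (a : k) a.2
      refine ⟨β * a₂, A.mul_mem hβ ha₂, mul_ne_zero hβ0 ha20, by
        rw [q.ord_mul _ _ hβ0 ha20, hβ1, ha2]; rfl, ?_⟩
      have h3 : algebraMap k K (β * a₂) * ((a • x : integralClosure q.ring K) : K) =
          algebraMap k K a₁ * (algebraMap k K β * (x : K)) := by
        have h4 : ((a • x : integralClosure q.ring K) : K) = algebraMap k K (a : k) * (x : K) := by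
          rw [Algebra.smul_def]
          rfl
        rw [h4, haa, map_mul, map_div₀]
        have h5 : algebraMap k K a₂ ≠ 0 := (map_ne_zero _).2 ha20
        field_simp
      rw [h3]
      exact B.mul_mem (hAB _ ha₁) h2
  refine ⟨B, ⟨G, rfl⟩, ?_, ?_⟩
  · intro a ha
    change a ∈ Q.ring
    refine (Algebra.adjoin_le (S := Q.ring) ?_) ha
    intro x hx
    rw [Finset.mem_coe, Finset.mem_union] at hx
    rcases hx with hx | hx
    · obtain ⟨y, hy, rfl⟩ := Finset.mem_image.1 hx
      exact (h.nonneg_iff y).2 (hA0 y (by rw [← hs]; exact Algebra.subset_adjoin hy))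
    · obtain ⟨c, hc, rfl⟩ := Finset.mem_image.1 hx
      exact hint _ c.2
  · intro y hy
    obtain ⟨b, hbV, hbV', hb0, ⟨q₁, hq1m, hq1c, hq1e⟩, ⟨q₂, hq2m, hq2c, hq2e⟩⟩ :=
      exists_integral_denominator (algebraMap k K).fieldRange (fun z => by
        obtain ⟨g, hg0, hg⟩ := Algebra.IsAlgebraic.isAlgebraic (R := k) z
        refine ⟨g.map (algebraMap k K), ?_, ?_, ?_⟩
        · rw [Ne, Polynomial.map_eq_zero]; exact hg0
        · intro n
          rw [Polynomial.coeff_map]
          exact ⟨_, rfl⟩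
        · rw [Polynomial.eval_map, ← Polynomial.aeval_def]; exact hg) Q.toVal y
        ((Q.mem_toVal).2 hy)
    have hlift : ∀ (p : Polynomial K) (z : K), p.Monic →
        (∀ n, p.coeff n ∈ (algebraMap k K).fieldRange ∧ p.coeff n ∈ Q.toVal) → p.eval z = 0 →
        IsIntegral q.ring z := by
      intro p z hp hc hz
      have h1 : p ∈ Polynomial.lifts (algebraMap q.ring K) := by
        rw [Polynomial.lifts_iff_coeff_lifts]
        intro n
        obtain ⟨⟨c, hc1⟩, hc2⟩ := hc n
        have h2 : 0 ≤ q.ord c := (h.nonneg_iff c).1 (by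
          have h3 := (Q.mem_toVal).1 hc2
          rw [← hc1] at h3
          exact h3)
        exact ⟨⟨c, h2⟩, hc1⟩
      obtain ⟨p', hp', _, hp'm⟩ := Polynomial.lifts_and_natDegree_eq_and_monic h1 hp
      refine ⟨p', hp'm, ?_⟩
      rw [← Polynomial.eval_map, hp']
      exact hz
    have hb1 := hlift q₁ b hq1m hq1c hq1e
    have hb2 := hlift q₂ (b * y) hq2m hq2c hq2e
    have hordb : Q.ord b = 0 := by
      have h1 := (Q.mem_toVal).1 hbV
      have h2 := (Q.mem_toVal).1 hbV'
      rw [Q.ord_inv] at h2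
      omega
    obtain ⟨β, hβ, hβ0, hβ1, h2⟩ := hCB b hb1
    obtain ⟨β', hβ', hβ0', hβ1', h2'⟩ := hCB (b * y) hb2
    have hβK : algebraMap k K β ≠ 0 := (map_ne_zero _).2 hβ0
    have hβK' : algebraMap k K β' ≠ 0 := (map_ne_zero _).2 hβ0'
    refine ⟨algebraMap k K β * (algebraMap k K β' * (b * y)), B.mul_mem (hAB _ hβ) h2',
      algebraMap k K β' * (algebraMap k K β * b), B.mul_mem (hAB _ hβ') h2,
      mul_ne_zero hβK' (mul_ne_zero hβK hb0), ?_, ?_⟩
    · rw [Q.ord_mul _ _ hβK' (mul_ne_zero hβK hb0), Q.ord_mul _ _ hβK hb0, h.ord, h.ord, hβ1,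
        hβ1', hordb]
      simp
    · field_simp

/-- The formula `A(Q) = e A(q)` for log discrepancies. -/
theorem ram_of_basis {κ : Type} [Fintype κ] (y : κ → k) (hy : IsTranscendenceBasis ℂ y)
    {ω : TopForm k} (hω : ω ≠ 0) {ω' : TopForm K} (hω' : ω' ≠ 0) :
    ∃ c : Kˣ, ∀ (Q : DVal K) (q : DVal k) (e : ℕ), Over Q q e → q.Divisorial →
      canOrd Q ω' + 1 = (e : ℤ) * (canOrd q ω + 1) + Q.ord (c : K) := by
  classical
  have hy' : IsTranscendenceBasis ℂ fun i => algebraMap k K (y i) := hy.algebraMap_comp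
  obtain ⟨g, hg, hv⟩ := kp_vol y hy hω
  obtain ⟨g', hg', hv'⟩ := kp_vol _ hy' hω'
  have hgK : algebraMap k K g ≠ 0 := (map_ne_zero _).2 hg
  refine ⟨Units.mk0 (g' / algebraMap k K g) (div_ne_zero hg' hgK), fun Q q e h hq => ?_⟩
  have hQ := over_divisorial h hq
  obtain ⟨m, b, hm, hb⟩ := kp_exists_residues q hq y hy
  obtain ⟨t, ht⟩ := q.exists_ord_one
  obtain ⟨T, hT⟩ := Q.exists_ord_one
  obtain ⟨ε⟩ := kp_equiv hm
  obtain ⟨J, hJ⟩ := kp_change q hq y hy hm b hb t ht ε
  have hb' := resIndep_up h hb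
  have hspan' := kp_lattice Q hQ _ hy' hm _ hb' T hT
  have htQ : Q.ord (algebraMap k K t) = e := by rw [h.ord, ht, mul_one]
  obtain ⟨M, hM0, hM1, hM⟩ := exists_jac T hT hspan' (algebraMap k K t) h.pos htQ
  -- below
  have hv1 := (hv.reindex ε).change J hJ
  have hdet : J.det ≠ 0 := right_ne_zero_of_mul (hv1.ne_zero hω)
  have h1 : canOrd q ω = q.ord g + q.ord J.det := by
    rw [can_ord_of_vol hv1 hω q (tb_nonneg hb ht) (kp_lattice q hq y hy hm b hb t ht),
      q.ord_mul _ _ hg hdet]
  -- above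
  have htb : ∀ i, tb (algebraMap k K t) (fun i => algebraMap k K (b i)) i =
      algebraMap k K (tb t b i) := by
    rintro (_ | i) <;> rfl
  have hv2 := (hv'.reindex ε).change (x := tb (algebraMap k K t) fun i => algebraMap k K (b i))
    (J.map (algebraMap k K)) (fun i => by
      have h2 := D_up' (K := K) (fun j => tb t b j) (y (ε i)) (J i) (hJ i)
      rw [h2]
      refine Finset.sum_congr rfl fun j _ => ?_
      rw [Matrix.map_apply, htb])
  have hv3 := hv2.change M hM
  have hdetK : algebraMap k K J.det ≠ 0 := (map_ne_zero _).2 hdet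
  have hJdet : (J.map (algebraMap k K)).det = algebraMap k K J.det :=
    (RingHom.map_det (algebraMap k K) J).symm
  rw [hJdet] at hv3
  rw [can_ord_of_vol hv3 hω' Q (tb_nonneg hb' hT) hspan',
    Q.ord_mul _ _ (mul_ne_zero hg' hdetK) hM0, Q.ord_mul _ _ hg' hdetK, hM1, h.ord, h1,
    Units.val_mk0, Q.ord_div hg' hgK, h.ord]
  ring

end Pool.Agent.LibKP
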