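import Pool.Agent.LibKP.Trb

/-! THEOREM K' (covers), helper80: log discrepancies under finite covers. -/

set_option autoImplicit false

open scoped KaehlerDifferential
open Pool.Agent.LibGMM Pool.Agent.LibK Pool.Agent.LibKC Pool.Agent.LibCov80

namespace Pool.Agent.LibKP

variable {k : Type} [Field k] [Algebra ℂ k] {K : Type} [Field K] [Algebra ℂ K] [Algebra k K]
  [IsScalarTower ℂ k K]

theorem resIndep_up {Q : DVal K} {q : DVal k} {e : ℕ} (h : Over Q q e) {ι : Type} {b : ι → k}
    (hb : ResIndep q b) : ResIndep Q fun i => algebraMap k K (b i) := by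
  intro P hP
  have h1 : MvPolynomial.aeval (fun i => algebraMap k K (b i)) P =
      algebraMap k K (MvPolynomial.aeval b P) := by
    have h2 : (MvPolynomial.aeval (fun i => algebraMap k K (b i)) : MvPolynomial ι ℂ →ₐ[ℂ] K) =
        (IsScalarTower.toAlgHom ℂ k K).comp (MvPolynomial.aeval b) := by
      apply MvPolynomial.algHom_ext
      intro i; simp
    rw [h2]; rfl
  obtain ⟨h2, h3⟩ := hb P hP
  rw [h1]
  exact ⟨(map_ne_zero _).2 h2, by rw [h.ord, h3, mul_zero]⟩

/-- Linear relations between differentials are preserved. -/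
theorem D_up' {ι : Type} [Fintype ι] (w : ι → k) (y : k) (a : ι → k)
    (h : KaehlerDifferential.D ℂ k y = ∑ j, a j • KaehlerDifferential.D ℂ k (w j)) :
    KaehlerDifferential.D ℂ K (algebraMap k K y) =
      ∑ j, algebraMap k K (a j) • KaehlerDifferential.D ℂ K (algebraMap k K (w j)) := by
  have h1 := congrArg (KaehlerDifferential.map ℂ ℂ k K) h
  rw [KaehlerDifferential.map_D, map_sum] at h1
  rw [h1]
  refine Finset.sum_congr rfl fun j _ => ?_
  rw [map_smul, KaehlerDifferential.map_D, algebraMap_smul]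

/-- The Jacobian of the uniformiser `t = u T ^ e` of the lower valuation. -/
theorem exists_jac {Q : DVal K} {m : ℕ} {b : Fin m → K} (T : K)
    (hT : Q.ord T = 1)
    (hspan : ∀ z, 0 ≤ Q.ord z → KaehlerDifferential.D ℂ K z ∈
      Submodule.span Q.ring (Set.range fun i => KaehlerDifferential.D ℂ K (tb T b i)))
    (t : K) {e : ℕ} (he : 0 < e) (ht : Q.ord t = e) :
    ∃ M : Matrix (Unit ⊕ Fin m) (Unit ⊕ Fin m) K, M.det ≠ 0 ∧ Q.ord M.det = (e : ℤ) - 1 ∧
      ∀ i, KaehlerDifferential.D ℂ K (tb t b i) =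
        ∑ j, M i j • KaehlerDifferential.D ℂ K (tb T b j) := by
  classical
  have hT0 : T ≠ 0 := by rintro rfl; simp at hT
  have ht0 : t ≠ 0 := by rintro rfl; rw [Q.ord_zero] at ht; omega
  set u := t / T ^ e with hu
  have hTe : T ^ e ≠ 0 := pow_ne_zero _ hT0
  have hu0 : u ≠ 0 := div_ne_zero ht0 hTe
  have huord : Q.ord u = 0 := by
    rw [hu, Q.ord_div ht0 hTe, Q.ord_pow, hT, ht]; ring
  have htu : t = u * T ^ e := by rw [hu, div_mul_cancel₀ _ hTe]
  obtain ⟨a, ha⟩ := (Submodule.mem_span_range_iff_exists_fun Q.ring).1 (hspan u huord.ge)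
  have ha' : KaehlerDifferential.D ℂ K u =
      ∑ j, (a j : K) • KaehlerDifferential.D ℂ K (tb T b j) := ha.symm
  rw [Fintype.sum_sum_type] at ha'
  simp only [Finset.univ_unique, Finset.sum_singleton] at ha'
  let α : K := a (Sum.inl ())
  let M : Matrix (Unit ⊕ Fin m) (Unit ⊕ Fin m) K := Matrix.fromBlocks
    (Matrix.of fun _ _ => (e : K) * u * T ^ (e - 1) + T ^ e * α)
    (Matrix.of fun _ j => T ^ e * (a (Sum.inr j) : K)) 0 1
  have hdet : M.det = (e : K) * u * T ^ (e - 1) + T ^ e * α := by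
    simp only [M]
    rw [Matrix.det_fromBlocks_zero₂₁, Matrix.det_one, mul_one, Matrix.det_unique, Matrix.of_apply]
  have hee : ((e : K) * u) ≠ 0 ∧ Q.ord ((e : K) * u) = 0 := by
    have h1 : (e : K) = algebraMap ℂ K (e : ℂ) := by rw [map_natCast]
    have h2 : (e : K) ≠ 0 := by
      rw [h1, Ne, map_eq_zero_iff _ (algebraMap ℂ K).injective]
      exact_mod_cast he.ne'
    refine ⟨mul_ne_zero h2 hu0, ?_⟩
    rw [Q.ord_mul _ _ h2 hu0, huord, h1, Q.ord_const, add_zero]
  have hfac : M.det = T ^ (e - 1) * ((e : K) * u + T * α) := by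
    rw [hdet]
    have h1 : T ^ e = T ^ (e - 1) * T := by
      rw [← pow_succ]
      congr 1
      omega
    rw [h1]; ring
  have hsum := Q.ord_add_eq hee.1 (b := T * α) (by
    by_cases hα : α = 0
    · left; rw [hα, mul_zero]
    · right
      rw [hee.2, Q.ord_mul _ _ hT0 hα, hT]
      have : 0 ≤ Q.ord α := (a (Sum.inl ())).2
      omega)
  refine ⟨M, ?_, ?_, ?_⟩
  · rw [hfac]
    exact mul_ne_zero (pow_ne_zero _ hT0) hsum.2
  · rw [hfac, Q.ord_mul _ _ (pow_ne_zero _ hT0) hsum.2, hsum.1, hee.2, Q.ord_pow, hT]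
    push_cast [Nat.cast_sub he]
    omega
  · rintro (_ | i)
    · change KaehlerDifferential.D ℂ K t = _
      rw [Fintype.sum_sum_type]
      simp only [Finset.univ_unique, Finset.sum_singleton]
      conv_lhs => rw [htu, Derivation.leibniz, Derivation.leibniz_pow, ha']
      have h1 : M (Sum.inl ()) (Sum.inl default) = (e : K) * u * T ^ (e - 1) + T ^ e * α := rfl
      have h2 : ∀ j, M (Sum.inl ()) (Sum.inr j) = T ^ e * (a (Sum.inr j) : K) := fun j => rfl
      have h3 : (tb T b (Sum.inl default) : K) = T := rfl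
      simp only [PUnit.default_eq_unit] at *
      rw [h1, h3]
      simp_rw [h2]
      rw [smul_add, ← Nat.cast_smul_eq_nsmul K, smul_smul, smul_smul, smul_smul, add_smul,
        Finset.smul_sum]
      simp_rw [smul_smul]
      rw [← add_assoc]
      congr 2
      congr 1
      ring
    · rw [Fintype.sum_sum_type]
      have h1 : M (Sum.inr i) (Sum.inl default) = 0 := rfl
      have h2 : ∀ j, M (Sum.inr i) (Sum.inr j) = (1 : Matrix (Fin m) (Fin m) K) i j := fun j => rfl
      simp only [Finset.univ_unique, Finset.sum_singleton]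
      rw [h1, zero_smul, zero_add, Finset.sum_eq_single i]
      · rw [h2, Matrix.one_apply_eq, one_smul]
        rfl
      · intro j _ hj
        rw [h2, Matrix.one_apply_ne hj.symm, zero_smul]
      · intro h; exact absurd (Finset.mem_univ _) h

end Pool.Agent.LibKP
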